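import Pool.Agent.SZT.StmtsB

/-!
# SZT, row EIN: the local inequality over `L`
-/

set_option autoImplicit false

noncomputable section

open Polynomial H58Q

namespace Pool.Agent.SZT.H70

open Pool.Agent.SZT.B

theorem log_prod_max (R : Multiset ℝ) (h : ∀ x ∈ R, 0 < x) :
    Real.log R.prod = (R.map Real.log).sum := by
  induction R using Multiset.induction_on with
  | empty => simp
  | cons a R ih =>
    have h1 : 0 < a := h a (Multiset.mem_cons_self a R)
    have h2 : ∀ x ∈ R, 0 < x := fun x hx => h x (Multiset.mem_cons_of_mem hx)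
    have h3 : 0 < R.prod := Multiset.prod_pos h2
    rw [Multiset.prod_cons, Multiset.map_cons, Multiset.sum_cons,
      Real.log_mul h1.ne' h3.ne', ih h2]

theorem ein (nod : NodStmt) (cht : ChtStmt) (gau : GauStmt) (ord : OrdStmt) (inf : InfStmt)
    (nin : NinStmt) (eia : EiaStmt) : EinStmt := by
  classical
  intro L _ _ _ f θ s A B U W M hN hs hA hAs hAd hMe hM hU hr
  obtain ⟨⟨hη0, hη1, he⟩, -, -, ⟨hfi, hfm, hfd⟩, -, -⟩ := nod L f θ hN
  obtain ⟨m, rfl⟩ : ∃ m, M = 2 * m := by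
    obtain ⟨m, hm⟩ := hMe
    exact ⟨m, by omega⟩
  have h2n : ‖(2 : L)‖ = 1 := hN.two
  have h20 : (2 : L) ≠ 0 := by
    intro h
    rw [h, norm_zero] at h2n
    exact zero_ne_one h2n
  obtain ⟨γ, hγ0, hγ2, hγU, hγW⟩ := gau L f U W (A ^ (2 * m)) 1 hfm (by rw [hfd]; decide) hfi
    (hA.pow _) (hAs.pow _) one_ne_zero (by rw [map_one, one_mul]; exact hU)
  rw [norm_one, one_mul, Polynomial.roots_pow, Multiset.map_nsmul, Multiset.prod_nsmul] at hγ2
  have hγp : 0 < ‖γ‖ := norm_pos_iff.2 hγ0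
  -- the normalized functions
  set α : L[X] := C γ⁻¹ * U with hα
  set β : L[X] := C γ⁻¹ * W with hβ
  have hαi : PInt α := by
    intro i
    rw [hα, coeff_C_mul, norm_mul, norm_inv, inv_mul_le_iff₀ hγp, mul_one]
    exact hγU i
  have hβi : PInt β := by
    intro i
    rw [hβ, coeff_C_mul, norm_mul, norm_inv, inv_mul_le_iff₀ hγp, mul_one]
    exact hγW i
  have hαβ : α ^ 2 - f * β ^ 2 = C (γ⁻¹ ^ 2) * A ^ (2 * m) := by
    rw [← hU, hα, hβ, C_pow]
    ring
  have hκ0 : γ⁻¹ ^ 2 ≠ 0 := pow_ne_zero _ (inv_ne_zero hγ0)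
  have hA0 : A ≠ 0 := hA.ne_zero
  have hev : ∀ a ∈ A.roots, A.eval a = 0 := fun a ha => (mem_roots hA0).1 ha
  have hsum : ∀ a ∈ A.roots, α.eval a + β.eval a * B.eval a = 0 := by
    intro a ha
    rw [hα, hβ, eval_mul, eval_mul, eval_C]
    linear_combination γ⁻¹ * (hr a ha).2.1
  have hdif : ∀ a ∈ A.roots, α.eval a - β.eval a * B.eval a = γ⁻¹ * (2 * U.eval a) := by
    intro a ha
    rw [hα, hβ, eval_mul, eval_mul, eval_C]
    linear_combination -γ⁻¹ * (hr a ha).2.1
  have hdif0 : ∀ a ∈ A.roots, α.eval a - β.eval a * B.eval a ≠ 0 := by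
    intro a ha
    rw [hdif a ha]
    exact mul_ne_zero (inv_ne_zero hγ0) (mul_ne_zero h20 (hr a ha).2.2)
  have hB0 : ∀ a ∈ A.roots, B.eval a ≠ 0 := by
    intro a ha h
    have h1 := (hr a ha).2.1
    rw [h, mul_zero, add_zero] at h1
    exact (hr a ha).2.2 h1
  -- the terms
  set d : ℕ := Multiset.card A.roots with hd
  have hdn : A.natDegree = d := hAs.natDegree_eq_card_roots
  have hd2 : d ≤ 2 := by rw [← hdn]; exact hAd
  set h : L → ℝ := fun a => Real.log ‖B.eval a‖ -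
    1 / ((2 * m : ℕ) : ℝ) * Real.log ‖α.eval a - β.eval a * B.eval a‖ with hh'
  set T : L → ℝ := fun a => h a - (d : ℝ) / 2 * Real.log (max 1 ‖a‖) with hT
  have hMp : (0 : ℝ) < ((2 * m : ℕ) : ℝ) := by exact_mod_cast hM
  have hlogγ : Real.log ‖γ‖ =
      ((2 * m : ℕ) : ℝ) / 2 * (A.roots.map fun a => Real.log (max 1 ‖a‖)).sum := by
    have h1 := congrArg Real.log hγ2
    rw [Real.log_pow, Real.log_pow, log_prod_max _ (by
      intro x hx
      obtain ⟨a, -, rfl⟩ := Multiset.mem_map.1 hx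
      exact lt_of_lt_of_le one_pos (le_max_left _ _)), Multiset.map_map] at h1
    have h2 : (A.roots.map (Real.log ∘ fun a : L => max 1 ‖a‖)).sum =
        (A.roots.map fun a => Real.log (max 1 ‖a‖)).sum := rfl
    rw [h2] at h1
    push_cast at h1 ⊢
    linarith
  have hterm : ∀ a ∈ A.roots, 1 / 2 * Real.log ‖4 * f.eval a‖ -
      1 / ((2 * m : ℕ) : ℝ) * Real.log ‖2 * U.eval a‖ =
      h a - 1 / ((2 * m : ℕ) : ℝ) * Real.log ‖γ‖ := by
    intro a ha
    have h1 : ‖4 * f.eval a‖ = ‖B.eval a‖ ^ 2 := by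
      rw [← (hr a ha).1, show (4 : L) = 2 * 2 by norm_num, norm_mul, norm_mul, h2n, norm_pow]
      ring
    have h3 : ‖α.eval a - β.eval a * B.eval a‖ = ‖γ‖⁻¹ * ‖2 * U.eval a‖ := by
      rw [hdif a ha, norm_mul, norm_inv]
    have h4 : ‖2 * U.eval a‖ ≠ 0 := norm_ne_zero_iff.2 (mul_ne_zero h20 (hr a ha).2.2)
    rw [h1, Real.log_pow, hh']
    simp only []
    rw [h3, Real.log_mul (inv_ne_zero hγp.ne') h4, Real.log_inv]
    push_cast
    ring
  have hS : (A.roots.map fun a => 1 / 2 * Real.log ‖4 * f.eval a‖ -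
      1 / ((2 * m : ℕ) : ℝ) * Real.log ‖2 * U.eval a‖).sum = (A.roots.map T).sum := by
    have e1 : (A.roots.map fun a => h a - 1 / ((2 * m : ℕ) : ℝ) * Real.log ‖γ‖).sum =
        (A.roots.map h).sum - d * (1 / ((2 * m : ℕ) : ℝ) * Real.log ‖γ‖) := by
      rw [Multiset.sum_map_sub, Multiset.map_const', Multiset.sum_replicate, nsmul_eq_mul]
    have e2 : (A.roots.map T).sum = (A.roots.map h).sum -
        (d : ℝ) / 2 * (A.roots.map fun a => Real.log (max 1 ‖a‖)).sum := by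
      rw [hT, Multiset.sum_map_sub, Multiset.sum_map_mul_left]
    rw [Multiset.map_congr rfl hterm, e1, e2, hlogγ]
    field_simp
  rw [hS]
  -- the terms outside the node
  have hout : ∀ a ∈ A.roots, 1 ≤ ‖a - ctr θ‖ → 0 ≤ T a := by
    intro a ha hae
    have hDp : 0 < ‖α.eval a - β.eval a * B.eval a‖ := norm_pos_iff.2 (hdif0 a ha)
    have hBp : 0 < ‖B.eval a‖ := norm_pos_iff.2 (hB0 a ha)
    rcases le_or_gt ‖a‖ 1 with h1 | h1
    · have h3 := ord L f θ α β A (γ⁻¹ ^ 2) a (B.eval a) (2 * m) hN hαi hβi hαβ (hev a ha) h1 hae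
        (hr a ha).1 (hsum a ha) (hdif0 a ha)
      have h4 := Real.log_le_log hDp h3
      rw [Real.log_pow] at h4
      have h5 : 1 / ((2 * m : ℕ) : ℝ) * Real.log ‖α.eval a - β.eval a * B.eval a‖ ≤
          Real.log ‖B.eval a‖ := by
        rw [one_div, inv_mul_le_iff₀ hMp]
        exact h4
      rw [hT]
      simp only [hh', max_eq_left h1, Real.log_one, mul_zero, sub_zero]
      linarith
    · obtain ⟨h3, h4⟩ := inf L f θ α β A (γ⁻¹ ^ 2) a (B.eval a) m hN hαi hβi hA hκ0 hαβ (hev a ha)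
        h1 (hr a ha).1 (hsum a ha) (hdif0 a ha)
      have ha0 : 0 < Real.log ‖a‖ := Real.log_pos h1
      have hd1 : 1 ≤ d := by
        rw [hd, Nat.one_le_iff_ne_zero, Ne, Multiset.card_eq_zero]
        intro h0
        rw [h0] at ha
        exact absurd ha (Multiset.notMem_zero a)
      have h5 : Real.log ‖B.eval a‖ = 5 / 2 * Real.log ‖a‖ := by
        have := congrArg Real.log h3
        rw [Real.log_pow, Real.log_pow] at this
        push_cast at this
        linarith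
      have h6 : Real.log ‖α.eval a - β.eval a * B.eval a‖ ≤
          (m : ℝ) * ((d : ℝ) - 1) * Real.log ‖a‖ := by
        have := Real.log_le_log hDp h4
        rw [Real.log_pow, hdn] at this
        push_cast [Nat.cast_sub hd1] at this
        exact this
      have h7 : 1 / ((2 * m : ℕ) : ℝ) * Real.log ‖α.eval a - β.eval a * B.eval a‖ ≤
          ((d : ℝ) - 1) / 2 * Real.log ‖a‖ := by
        rw [one_div, inv_mul_le_iff₀ hMp]
        push_cast
        linarith
      have hdr : (d : ℝ) ≤ 2 := by exact_mod_cast hd2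
      rw [hT]
      simp only [hh', max_eq_right h1.le]
      rw [h5]
      nlinarith
  -- the terms in the node
  have hsplit : (A.roots.map T).sum = ((A.roots.filter fun a => ‖a - ctr θ‖ < 1).map T).sum +
      ((A.roots.filter fun a => ¬ ‖a - ctr θ‖ < 1).map T).sum := by
    rw [← Multiset.sum_add, ← Multiset.map_add, Multiset.filter_add_not]
  have hout2 : 0 ≤ ((A.roots.filter fun a => ¬ ‖a - ctr θ‖ < 1).map T).sum := by
    apply Multiset.sum_nonneg
    intro x hx
    obtain ⟨a, ha, rfl⟩ := Multiset.mem_map.1 hx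
    obtain ⟨ha1, ha2⟩ := Multiset.mem_filter.1 ha
    exact hout a ha1 (not_lt.1 ha2)
  obtain ⟨cht1, cht2, -⟩ := cht L f θ s hN hs
  set w : L → ℝ := fun x => ‖α.eval (xx θ x) - β.eval (xx θ x) * yy θ s x‖ with hw
  have hnode : ∀ a ∈ A.roots, ‖a - ctr θ‖ < 1 → Ann ‖eta θ‖ (crd θ s a (B.eval a)) ∧
      xx θ (crd θ s a (B.eval a)) = a ∧ yy θ s (crd θ s a (B.eval a)) = B.eval a := by
    intro a ha hpa
    obtain ⟨h1, h2, h3, -⟩ := cht2 a (B.eval a) (hr a ha).1 hpa
    exact ⟨h1, h2, h3⟩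
  have hmem : ∀ x ∈ nz θ s A B, ∃ a ∈ A.roots, ‖a - ctr θ‖ < 1 ∧ x = crd θ s a (B.eval a) := by
    intro x hx
    rw [nz] at hx
    obtain ⟨a, ha, rfl⟩ := Multiset.mem_map.1 hx
    obtain ⟨ha1, ha2⟩ := Multiset.mem_filter.1 ha
    exact ⟨a, ha1, ha2, rfl⟩
  have hin : ((A.roots.filter fun a => ‖a - ctr θ‖ < 1).map T).sum =
      ((nz θ s A B).map fun x => Real.log ‖x - eta θ / x‖ -
        1 / ((2 * m : ℕ) : ℝ) * Real.log (w x)).sum := by
    rw [nz, Multiset.map_map]
    have h1 : (A.roots.filter fun a => ‖a - ctr θ‖ < 1).map T = (A.roots.filter fun a => ‖a - ctr θ‖ < 1).map ((fun x => Real.log ‖x - eta θ / x‖ -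
        1 / ((2 * m : ℕ) : ℝ) * Real.log (w x)) ∘ fun a => crd θ s a (B.eval a)) := by
      apply Multiset.map_congr rfl
      intro a ha
      obtain ⟨ha1, ha2⟩ := Multiset.mem_filter.1 ha
      obtain ⟨h1, h2, h3⟩ := hnode a ha1 ha2
      have hale : ‖a‖ ≤ 1 := by
        have h4 := IsUltrametricDist.norm_add_le_max (a - ctr θ) (ctr θ)
        rw [sub_add_cancel] at h4
        exact h4.trans (max_le (le_of_lt ha2) he)
      obtain ⟨-, -, h5, -⟩ := cht1 _ h1
      rw [h3] at h5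
      simp only [hT, hh', hw, Function.comp, h2, h3, max_eq_left hale, Real.log_one, mul_zero,
        sub_zero, h5]
    rw [h1]
  have hcard : Multiset.card (nz θ s A B) ≤ 2 := by
    rw [nz, Multiset.card_map]
    exact (Multiset.card_le_card (Multiset.filter_le _ _)).trans hd2
  have hfin := eia L (eta θ) (nz θ s A B) w (2 * m) hη0 hη1 hM (by
      intro x hx
      obtain ⟨a, ha, hpa, rfl⟩ := hmem x hx
      exact (hnode a ha hpa).1) hcard (by
      intro x hx
      obtain ⟨a, ha, hpa, rfl⟩ := hmem x hx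
      obtain ⟨h1, h2, h3⟩ := hnode a ha hpa
      rw [hw]
      simp only [h2, h3]
      exact norm_pos_iff.2 (hdif0 a ha)) (by
      intro x hx
      exact nin L f θ s α β A B (γ⁻¹ ^ 2) (2 * m) hN hs hαi hβi hA hAs hM hαβ
        (fun a ha => ⟨(hr a ha).1, hsum a ha, hdif0 a ha⟩) x hx)
  rw [hsplit, hin]
  rw [ss]
  linarith

end Pool.Agent.SZT.H70
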